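import Pool.Agent.K1H73.SQB.Stm2
import Pool.Agent.Y420.SQ.Tail

/-! Project SQB, part 2, piece TAIL2: the tail of the singular series of a set of pairs
(adapted from `Pool/Agent/Y420/SQ/Tail.lean`). -/

set_option autoImplicit false

namespace Pool.Agent.K1H97.SQB

open Finset Pool.Agent.Y862.SQ Pool.Agent.K1H73.SQB
open Pool.Agent.Y420.SQ (mem_pr fac rH_single_le prod_one_sub_ge prod_one_sub_le sum_inv_sq prod_sub_one_le
  Dd_ge Dd_pow single_le_prod_one one_sub_nonneg)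

/-- shifting -/
theorem r2_single (z : ℕ × ℕ) (p : ℕ) : r2 {z} p = rH {z.2} p := by
  unfold r2 rH
  simp only [mem_singleton, exists_eq_left]
  have hper : Function.Periodic (fun x : ℕ => p ∣ x ^ 2 + z.2) p := by
    intro x
    show (p ∣ (x + p) ^ 2 + z.2) = (p ∣ x ^ 2 + z.2)
    have e : (x + p) ^ 2 + z.2 = p * (2 * x + p) + (x ^ 2 + z.2) := by ring
    rw [e]
    exact propext (Nat.dvd_add_right (Dvd.intro _ rfl))
  have h1 := Nat.filter_Ico_card_eq_of_periodic z.1 p (fun x : ℕ => p ∣ x ^ 2 + z.2) hper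
  rw [Nat.count_eq_card_filter_range] at h1
  rw [← h1]
  apply Finset.card_nbij' (fun r : ℕ => r + z.1) (fun x : ℕ => x - z.1)
  · intro r hr
    rw [mem_coe, mem_filter, mem_range] at hr
    rw [mem_coe, mem_filter, mem_Ico]
    refine ⟨⟨?_, ?_⟩, hr.2⟩
    · show z.1 ≤ r + z.1
      omega
    · show r + z.1 < z.1 + p
      omega
  · intro x hx
    rw [mem_coe, mem_filter, mem_Ico] at hx
    rw [mem_coe, mem_filter, mem_range]
    refine ⟨?_, ?_⟩
    · show x - z.1 < p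
      omega
    · show p ∣ (x - z.1 + z.1) ^ 2 + z.2
      rw [Nat.sub_add_cancel hx.1.1]
      exact hx.2
  · intro r _
    simp
  · intro x hx
    rw [mem_coe, mem_filter, mem_Ico] at hx
    exact Nat.sub_add_cancel hx.1.1

theorem dist_sq (a b : ℕ) : ((Nat.dist a b : ℕ) : ℤ) ^ 2 = ((b : ℤ) - a) ^ 2 := by
  rcases Nat.le_total a b with h | h
  · rw [Nat.dist_eq_sub_of_le h, Nat.cast_sub h]
  · rw [Nat.dist_eq_sub_of_le_right h, Nat.cast_sub h]; ring

/-- the resultant is divisible by `p` at a collision -/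
theorem Rn_dvd (z z' : ℕ × ℕ) (p r : ℕ) (h1 : p ∣ (r + z.1) ^ 2 + z.2) (h2 : p ∣ (r + z'.1) ^ 2 + z'.2) :
    p ∣ Rn z z' := by
  have h1' : (p : ℤ) ∣ ((r : ℤ) + z.1) ^ 2 + z.2 := by exact_mod_cast h1
  have h2' : (p : ℤ) ∣ ((r : ℤ) + z'.1) ^ 2 + z'.2 := by exact_mod_cast h2
  have e : ((Rn z z' : ℕ) : ℤ) =
      ((((r : ℤ) + z'.1) ^ 2 + z'.2) - (((r : ℤ) + z.1) ^ 2 + z.2)) *
        (((((r : ℤ) + z'.1) ^ 2 + z'.2) - (((r : ℤ) + z.1) ^ 2 + z.2)) -
          4 * ((z'.1 : ℤ) - z.1) * ((r : ℤ) + z.1)) +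
      4 * ((z'.1 : ℤ) - z.1) ^ 2 * (((r : ℤ) + z.1) ^ 2 + z.2) := by
    unfold Rn
    have e4 : ((Nat.dist z.1 z'.1 : ℕ) : ℤ) ^ 4 = (((z'.1 : ℤ) - z.1) ^ 2) ^ 2 := by
      rw [← dist_sq]; ring
    push_cast
    rw [e4, dist_sq, dist_sq]
    ring
  have h3 : (p : ℤ) ∣ ((Rn z z' : ℕ) : ℤ) := by
    rw [e]
    exact dvd_add (Dvd.dvd.mul_right (dvd_sub h2' h1') _) (Dvd.dvd.mul_left h1' _)
  exact_mod_cast h3

theorem Rn_ne (z z' : ℕ × ℕ) (h : z ≠ z') : Rn z z' ≠ 0 := by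
  intro h0
  apply h
  unfold Rn at h0
  have h1 : Nat.dist z.2 z'.2 ^ 2 = 0 := by omega
  have h2 : Nat.dist z.1 z'.1 ^ 4 = 0 := by omega
  have h3 : Nat.dist z.2 z'.2 = 0 := by simpa using h1
  have h4 : Nat.dist z.1 z'.1 = 0 := by simpa using h2
  exact Prod.ext (Nat.eq_of_dist_eq_zero h4) (Nat.eq_of_dist_eq_zero h3)

/-- a collision -/
def Cl2 (H : Finset (ℕ × ℕ)) (p : ℕ) : Prop := ∃ a ∈ H, ∃ b ∈ H, a ≠ b ∧ p ∣ Rn a b

theorem r2_biUnion (H : Finset (ℕ × ℕ)) (p : ℕ) :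
    (range p).filter (fun r => ∃ z ∈ H, p ∣ (r + z.1) ^ 2 + z.2) =
      H.biUnion (fun z => (range p).filter (fun r => ∃ z' ∈ ({z} : Finset (ℕ × ℕ)), p ∣ (r + z'.1) ^ 2 + z'.2)) := by
  ext r
  simp only [mem_filter, mem_biUnion, mem_range, mem_singleton, exists_eq_left]
  constructor
  · rintro ⟨hr1, h, hh, hq⟩
    exact ⟨h, hh, hr1, hq⟩
  · rintro ⟨h, hh, hr1, hq⟩
    exact ⟨hr1, h, hh, hq⟩

theorem r2_le (H : Finset (ℕ × ℕ)) (p : ℕ) : r2 H p ≤ ∑ z ∈ H, rH {z.2} p := by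
  have e : ∑ z ∈ H, rH {z.2} p = ∑ z ∈ H, r2 {z} p := Finset.sum_congr rfl fun z _ => (r2_single z p).symm
  rw [e]
  unfold r2
  rw [r2_biUnion]
  exact card_biUnion_le

theorem r2_eq (H : Finset (ℕ × ℕ)) (p : ℕ) (h : ¬ Cl2 H p) : r2 H p = ∑ z ∈ H, rH {z.2} p := by
  have e : ∑ z ∈ H, rH {z.2} p = ∑ z ∈ H, r2 {z} p := Finset.sum_congr rfl fun z _ => (r2_single z p).symm
  rw [e]
  unfold r2
  rw [r2_biUnion]
  apply card_biUnion
  intro a ha b hb hab
  rw [Function.onFun, Finset.disjoint_left]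
  intro r hr hr'
  simp only [mem_filter, mem_range, mem_singleton, exists_eq_left] at hr hr'
  exact h ⟨a, ha, b, hb, hab, Rn_dvd a b p r hr.2 hr'.2⟩

section one

variable (H : Finset (ℕ × ℕ)) (p : ℕ)

theorem base (hp : p.Prime) (hbig : 4 * H.card + 2 < p) :
    (∀ h ∈ H, 0 ≤ (rH {h.2} p : ℝ) / p) ∧ (∀ h ∈ H, (rH {h.2} p : ℝ) / p ≤ 1) ∧
    ∑ h ∈ H, (rH {h.2} p : ℝ) / p ≤ 2 * (H.card : ℝ) / p ∧ 2 * (H.card : ℝ) / p ≤ 1 / 2 := by
  have hp0 : (0 : ℝ) < p := by exact_mod_cast hp.pos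
  have hp2 : p ≠ 2 := by omega
  have h2p : (2 : ℝ) ≤ p := by exact_mod_cast hp.two_le
  refine ⟨fun h _ => by positivity, fun h _ => ?_, ?_, ?_⟩
  · rw [div_le_one hp0]
    exact (rH_single_le h.2 p hp hp2).trans h2p
  · rw [← Finset.sum_div]
    apply div_le_div_of_nonneg_right _ hp0.le
    refine (Finset.sum_le_card_nsmul H _ 2 (fun h _ => rH_single_le h.2 p hp hp2)).trans ?_
    rw [nsmul_eq_mul]
    linarith
  · rw [div_le_div_iff₀ hp0 (by norm_num)]
    have : ((4 * H.card + 2 : ℕ) : ℝ) ≤ p := by exact_mod_cast hbig.le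
    push_cast at this
    linarith

open Classical in
theorem factor_up (hp : p.Prime) (hbig : 4 * H.card + 2 < p) : 1 - (r2 H p : ℝ) / p ≤
      (∏ h ∈ H, (1 - (rH {h.2} p : ℝ) / p)) *
        (if Cl2 H p then 1 + ((4 * H.card : ℕ) : ℝ) / p else 1) := by
  have hp0 : (0 : ℝ) < p := by exact_mod_cast hp.pos
  obtain ⟨b1, b2, b3, b4⟩ := base H p hp hbig
  have h1 := prod_one_sub_ge H (fun h => (rH {h.2} p : ℝ) / p) b1 b2
  by_cases h : Cl2 H p
  · rw [if_pos h]
    have h2 : 1 - (r2 H p : ℝ) / p ≤ 1 := by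
      have : (0 : ℝ) ≤ (r2 H p : ℝ) / p := by positivity
      linarith
    refine h2.trans ?_
    obtain ⟨t, ht⟩ : ∃ t : ℝ, t = 2 * (H.card : ℝ) / p := ⟨_, rfl⟩
    rw [← ht] at b3 b4
    have ht0 : 0 ≤ t := by rw [ht]; positivity
    have h3 : ((4 * H.card : ℕ) : ℝ) / p = 2 * t := by
      rw [ht]
      push_cast
      ring
    rw [h3]
    calc (1 : ℝ) ≤ (1 - t) * (1 + 2 * t) := by nlinarith
      _ ≤ _ := mul_le_mul_of_nonneg_right (by linarith) (by linarith)
  · rw [if_neg h, mul_one, r2_eq H p h]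
    refine le_trans (le_of_eq ?_) h1
    push_cast
    rw [Finset.sum_div]

theorem factor_lo (hp : p.Prime) (hbig : 4 * H.card + 2 < p) :
      (∏ h ∈ H, (1 - (rH {h.2} p : ℝ) / p)) * (1 - 4 * (H.card : ℝ) ^ 2 / (p : ℝ) ^ 2) ≤
        1 - (r2 H p : ℝ) / p := by
  have hp0 : (0 : ℝ) < p := by exact_mod_cast hp.pos
  obtain ⟨b1, b2, b3, b4⟩ := base H p hp hbig
  have h1 := prod_one_sub_le H (fun h => (rH {h.2} p : ℝ) / p) b1 b2
  have h2 : (r2 H p : ℝ) / p ≤ ∑ h ∈ H, (rH {h.2} p : ℝ) / p := by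
    rw [← Finset.sum_div]
    apply div_le_div_of_nonneg_right _ hp0.le
    exact_mod_cast r2_le H p
  have h0 : 0 ≤ ∏ h ∈ H, (1 - (rH {h.2} p : ℝ) / p) :=
    Finset.prod_nonneg fun h hh => by linarith [b2 h hh]
  obtain ⟨s, hs⟩ : ∃ s : ℝ, s = ∑ h ∈ H, (rH {h.2} p : ℝ) / p := ⟨_, rfl⟩
  have hs0 : 0 ≤ s := by rw [hs]; exact Finset.sum_nonneg b1
  rw [← hs] at h1 h2 b3
  have h3 : s ^ 2 ≤ 4 * (H.card : ℝ) ^ 2 / (p : ℝ) ^ 2 := by
    calc s ^ 2 ≤ (2 * (H.card : ℝ) / p) ^ 2 := pow_le_pow_left₀ hs0 b3 2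
      _ = _ := by rw [div_pow]; ring
  calc (∏ h ∈ H, (1 - (rH {h.2} p : ℝ) / p)) * (1 - 4 * (H.card : ℝ) ^ 2 / (p : ℝ) ^ 2) ≤
      (∏ h ∈ H, (1 - (rH {h.2} p : ℝ) / p)) * (1 - s ^ 2) :=
        mul_le_mul_of_nonneg_left (by linarith) h0
    _ ≤ (1 - s + s ^ 2 / 2) * (1 - s ^ 2) :=
        mul_le_mul_of_nonneg_right h1 (by nlinarith)
    _ ≤ 1 - s := by nlinarith [mul_nonneg (sq_nonneg s) (sq_nonneg (1 - s))]
    _ ≤ _ := by linarith

end one

theorem one_sub_nonneg2 (H : Finset (ℕ × ℕ)) (p : ℕ) (hp : p.Prime) : 0 ≤ 1 - (r2 H p : ℝ) / p := by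
  have hp0 : (0 : ℝ) < p := by exact_mod_cast hp.pos
  rw [sub_nonneg, div_le_one hp0]
  have : r2 H p ≤ p := by
    unfold r2
    exact (card_filter_le _ _).trans (by rw [card_range])
  exact_mod_cast this

theorem prs2_card (H : Finset (ℕ × ℕ)) : (prs2 H).card ≤ H.card ^ 2 := by
  unfold prs2
  refine (card_filter_le _ _).trans ?_
  rw [card_product, sq]

/-- the product of the factors of the elements -/
theorem main_prod2 (H : Finset (ℕ × ℕ)) (w y : ℕ) (hw : 2 ≤ w) :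
    ∏ p ∈ (pr y).filter (fun p => w < p), ∏ h ∈ H, (1 - (rH {h.2} p : ℝ) / p) =
      V1t w y ^ H.card * ∏ h ∈ H, Ff w y h.2 := by
  have h1 : ∏ p ∈ (pr y).filter (fun p => w < p), ∏ h ∈ H, (1 - (rH {h.2} p : ℝ) / p) =
      ∏ p ∈ (pr y).filter (fun p => w < p), ((1 - 1 / (p : ℝ)) ^ H.card *
        ∏ h ∈ H, (1 - (leg h.2 p : ℝ) / ((p : ℝ) - 1))) := by
    apply Finset.prod_congr rfl
    intro p hp
    rw [mem_filter, mem_pr] at hp
    rw [Finset.prod_congr rfl fun h _ => fac h.2 p hp.1.2 (by omega), Finset.prod_mul_distrib,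
      Finset.prod_const]
  rw [h1, Finset.prod_mul_distrib, Finset.prod_pow, Finset.prod_comm]
  rfl

/-- `TAIL2` -/
theorem t_TAIL2 : S_TAIL2 := by
  classical
  intro H w y hbig
  have hw : 2 ≤ w := by omega
  have hmain := main_prod2 H w y hw
  have hnn : 0 ≤ V1t w y ^ H.card * ∏ h ∈ H, Ff w y h.2 := by
    rw [← hmain]
    apply Finset.prod_nonneg
    intro p hp
    rw [mem_filter, mem_pr] at hp
    exact Finset.prod_nonneg fun h _ => one_sub_nonneg {h.2} p hp.1.2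
  constructor
  · have h1 : ∏ p ∈ (pr y).filter (fun p => w < p),
        ((∏ h ∈ H, (1 - (rH {h.2} p : ℝ) / p)) * (1 - 4 * (H.card : ℝ) ^ 2 / (p : ℝ) ^ 2)) ≤
        VT2 H w y := by
      unfold VT2
      apply Finset.prod_le_prod
      · intro p hp
        rw [mem_filter, mem_pr] at hp
        apply mul_nonneg (Finset.prod_nonneg fun h _ => one_sub_nonneg {h.2} p hp.1.2)
        have hp0 : (0 : ℝ) < p := by exact_mod_cast hp.1.2.pos
        rw [sub_nonneg, div_le_one (by positivity)]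
        have h3 : (2 * (H.card : ℝ)) ^ 2 ≤ (p : ℝ) ^ 2 := by
          apply pow_le_pow_left₀ (by positivity)
          have : 2 * H.card ≤ p := by omega
          exact_mod_cast this
        linarith
      · intro p hp
        rw [mem_filter, mem_pr] at hp
        exact factor_lo H p hp.1.2 (by omega)
    refine le_trans ?_ h1
    rw [Finset.prod_mul_distrib, hmain]
    apply mul_le_mul_of_nonneg_left _ hnn
    refine le_trans ?_ (prod_one_sub_ge _ _ (fun p _ => by positivity) ?_)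
    · have h2 := sum_inv_sq w y (by omega)
      have h3 : ∑ p ∈ (pr y).filter (fun p => w < p), 4 * (H.card : ℝ) ^ 2 / (p : ℝ) ^ 2 ≤
          4 * (H.card : ℝ) ^ 2 * (1 / w) := by
        calc ∑ p ∈ (pr y).filter (fun p => w < p), 4 * (H.card : ℝ) ^ 2 / (p : ℝ) ^ 2 ≤
            ∑ p ∈ (Icc 1 y).filter (fun n => w < n), 4 * (H.card : ℝ) ^ 2 / (p : ℝ) ^ 2 := by
              apply Finset.sum_le_sum_of_subset_of_nonneg
              · intro p hp
                rw [mem_filter, mem_pr] at hp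
                rw [mem_filter, mem_Icc]
                exact ⟨⟨hp.1.2.one_lt.le, hp.1.1⟩, hp.2⟩
              · intros; positivity
          _ = 4 * (H.card : ℝ) ^ 2 * ∑ p ∈ (Icc 1 y).filter (fun n => w < n), 1 / (p : ℝ) ^ 2 := by
              rw [Finset.mul_sum]
              apply Finset.sum_congr rfl
              intros
              ring
          _ ≤ _ := by gcongr
      have h4 : 4 * (H.card : ℝ) ^ 2 * (1 / w) = 4 * (H.card : ℝ) ^ 2 / w := by ring
      linarith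
    · intro p hp
      rw [mem_filter, mem_pr] at hp
      have hp0 : (0 : ℝ) < p := by exact_mod_cast hp.1.2.pos
      rw [div_le_one (by positivity)]
      have h3 : (2 * (H.card : ℝ)) ^ 2 ≤ (p : ℝ) ^ 2 := by
        apply pow_le_pow_left₀ (by positivity)
        have : 2 * H.card ≤ p := by omega
        exact_mod_cast this
      linarith
  · obtain ⟨K, hK⟩ : ∃ K, K = 4 * H.card := ⟨_, rfl⟩
    have h1 : VT2 H w y ≤ ∏ p ∈ (pr y).filter (fun p => w < p),
        ((∏ h ∈ H, (1 - (rH {h.2} p : ℝ) / p)) * (if Cl2 H p then 1 + (K : ℝ) / p else 1)) := by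
      unfold VT2
      apply Finset.prod_le_prod
      · intro p hp
        rw [mem_filter, mem_pr] at hp
        exact one_sub_nonneg2 H p hp.1.2
      · intro p hp
        rw [mem_filter, mem_pr] at hp
        have h2 := factor_up H p hp.1.2 (by omega)
        rw [hK]
        exact h2
    have h2 : ∏ p ∈ (pr y).filter (fun p => w < p), (if Cl2 H p then 1 + (K : ℝ) / p else 1) ≤
        ∏ x ∈ prs2 H, Dd K w (Rn x.1 x.2) := by
      have e : ∏ p ∈ (pr y).filter (fun p => w < p),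
          ∏ x ∈ prs2 H, (if p ∣ Rn x.1 x.2 then 1 + (K : ℝ) / p else 1) ≤
          ∏ x ∈ prs2 H, Dd K w (Rn x.1 x.2) := by
        rw [Finset.prod_comm]
        apply Finset.prod_le_prod
        · intro x _
          apply Finset.prod_nonneg
          intro p _
          split_ifs <;> positivity
        · intro x hx
          unfold prs2 at hx
          rw [mem_filter] at hx
          rw [← Finset.prod_filter]
          unfold Dd
          apply Finset.prod_le_prod_of_subset_of_one_le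
          · intro p hp
            rw [mem_filter, mem_filter, mem_pr] at hp
            rw [mem_filter, Nat.mem_primeFactors]
            exact ⟨⟨hp.1.1.2, hp.2, Rn_ne _ _ hx.2⟩, hp.1.2⟩
          · intro p _
            positivity
          · intro p _ _
            have : 0 ≤ (K : ℝ) / p := by positivity
            linarith
      refine le_trans ?_ e
      apply Finset.prod_le_prod
      · intro p _
        split_ifs <;> positivity
      · intro p _
        have hge : ∀ x ∈ prs2 H, (1 : ℝ) ≤ (if p ∣ Rn x.1 x.2 then 1 + (K : ℝ) / p else 1) := by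
          intro x _
          have : 0 ≤ (K : ℝ) / p := by positivity
          split_ifs <;> linarith
        split_ifs with h
        · obtain ⟨a, ha, b, hb, hab, hco⟩ := h
          have hmem : (a, b) ∈ prs2 H := by
            unfold prs2
            rw [mem_filter, mem_product]
            exact ⟨⟨ha, hb⟩, hab⟩
          have h3 := single_le_prod_one (prs2 H)
            (fun x => if p ∣ Rn x.1 x.2 then 1 + (K : ℝ) / p else 1) hge (a, b) hmem
          simp only [if_pos hco] at h3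
          exact h3
        · exact Finset.one_le_prod hge
    have h3 : ∏ x ∈ prs2 H, Dd K w (Rn x.1 x.2) - 1 ≤
        ∑ x ∈ prs2 H, (Dd ((1 + K) ^ (H.card ^ 2) - 1) w (Rn x.1 x.2) - 1) := by
      refine (prod_sub_one_le (prs2 H) (fun x => Dd K w (Rn x.1 x.2))
        (fun x _ => Dd_ge K w _) (H.card ^ 2) (prs2_card H)).trans ?_
      apply Finset.sum_le_sum
      intro x _
      have := Dd_pow K (H.card ^ 2) w (Rn x.1 x.2)
      linarith
    rw [← hK]
    refine h1.trans ?_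
    rw [Finset.prod_mul_distrib, hmain]
    apply mul_le_mul_of_nonneg_left _ hnn
    linarith

end Pool.Agent.K1H97.SQB
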